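import Pool.Agent.Helper786_Fer.Glob
import Pool.Agent.W723.SecC.D1d
import Pool.Agent.W417.SecC.D2
import Pool.Agent.W52.SecC.D3

/-!
# Generalized Fermat curves: density
-/

set_option autoImplicit false
set_option linter.all false

open Polynomial IsDedekindDomain NumberField

namespace Pool.Agent.Helper786_Fer

section primes

variable {K : Type} [Field K] [NumberField K]

/-- an integer which is not an `ℓ`-th power -/
theorem exists_q (ℓ : ℕ) (hℓ : ℓ.Prime) : ∃ q : 𝓞 K, q ≠ 0 ∧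
    ∀ s : K, s ^ ℓ ≠ algebraMap (𝓞 K) K q := by
  obtain ⟨I, hI, h2⟩ : ∃ I : Ideal (𝓞 K), I.IsMaximal ∧ ((2 : ℕ) : 𝓞 K) ∈ I := by
    obtain ⟨I, hI, h⟩ := exists_max_ideal_of_mem_nonunits (a := ((2 : ℕ) : 𝓞 K)) (by
      intro h
      have h1 : Ideal.absNorm (Ideal.span {((2 : ℕ) : 𝓞 K)}) = 2 ^ Module.finrank ℤ (𝓞 K) :=
        Ideal.absNorm_span_natCast (S := 𝓞 K) 2
      rw [Ideal.span_singleton_eq_top.2 h, Ideal.absNorm_top] at h1
      rcases Nat.pow_eq_one.1 h1.symm with h5 | h5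
      · exact absurd h5 (by norm_num)
      · exact Module.finrank_pos.ne' h5)
    exact ⟨I, hI, h⟩
  have hI0 : I ≠ ⊥ := by
    intro h
    rw [h, Ideal.mem_bot] at h2
    exact two_ne_zero (Nat.cast_eq_zero.1 h2)
  obtain ⟨v, hv⟩ : ∃ v : HeightOneSpectrum (𝓞 K), v = ⟨I, hI.isPrime, hI0⟩ := ⟨_, rfl⟩
  obtain ⟨q, hq⟩ := v.intValuation_exists_uniformizer
  refine ⟨q, ?_, fun s hs => ?_⟩
  · rintro rfl
    rw [map_zero] at hq
    exact WithZero.exp_ne_zero hq.symm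
  · have h3 : WithZero.exp (-1 : ℤ) * 1 ^ ℓ = v.valuation K s ^ ℓ := by
      rw [one_pow, mul_one, ← map_pow, hs, v.valuation_of_algebraMap]
      exact hq.symm
    refine exp_not_pow hℓ.two_le ?_ h3
    intro h4
    rw [h4, zero_pow hℓ.ne_zero, one_pow, mul_one] at h3
    exact WithZero.exp_ne_zero h3

theorem exists_T (ℓ : ℕ) (hℓ : ℓ.Prime) (ε : ℝ) (hε : 0 < ε) :
    ∃ T : Finset (HeightOneSpectrum (𝓞 K)),
      (∀ v ∈ T, (ℓ : 𝓞 K) ∉ v.asIdeal ∧ ∃ q : 𝓞 K ⧸ v.asIdeal, q ≠ 0 ∧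
        ∀ r : 𝓞 K ⧸ v.asIdeal, r ^ ℓ ≠ q) ∧
      ∏ v ∈ T, (1 - (1 / (Ideal.absNorm v.asIdeal : ℝ) -
        1 / (Ideal.absNorm v.asIdeal : ℝ) ^ 2)) < ε := by
  classical
  obtain ⟨q, hq0, hq⟩ := exists_q (K := K) ℓ hℓ
  have hinj : Function.Injective (algebraMap (𝓞 K) K) := IsFractionRing.injective (𝓞 K) K
  have hmap : (X ^ ℓ - C q : (𝓞 K)[X]).map (algebraMap (𝓞 K) K) =
      X ^ ℓ - C (algebraMap (𝓞 K) K q) := by
    rw [Polynomial.map_sub, Polynomial.map_pow, map_X, map_C]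
  have hqK : algebraMap (𝓞 K) K q ≠ 0 := by
    rw [Ne, map_eq_zero_iff _ hinj]
    exact hq0
  have hirr : Irreducible (X ^ ℓ - C (algebraMap (𝓞 K) K q)) :=
    X_pow_sub_C_irreducible_of_prime hℓ hq
  have hdeg : (X ^ ℓ - C (algebraMap (𝓞 K) K q)).natDegree = ℓ := natDegree_X_pow_sub_C
  obtain ⟨σ, hσ⟩ := Pool.Agent.W52.SecC.D3.partD3 K _ hirr (by rw [hdeg]; exact hℓ.two_le)
  obtain ⟨T, hT, hTε⟩ := Pool.Agent.W723.SecC.partD1 K (X ^ ℓ - C q) ((ℓ : 𝓞 K) * q)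
    (mul_ne_zero (Nat.cast_ne_zero.2 hℓ.ne_zero) hq0)
    (by
      rw [hmap]
      exact separable_X_pow_sub_C _ (Nat.cast_ne_zero.2 hℓ.ne_zero) hqK)
    ⟨σ, by rw [hmap]; exact hσ⟩ ε hε
  refine ⟨T, fun v hv => ?_, hTε⟩
  obtain ⟨h1, -, -, -, h2⟩ := hT v hv
  refine ⟨fun h => h1 (Ideal.mul_mem_right _ _ h), Ideal.Quotient.mk _ q, ?_, fun r hr => ?_⟩
  · rw [Ne, Ideal.Quotient.eq_zero_iff_mem]
    exact fun h => h1 (Ideal.mul_mem_left _ _ h)
  · apply h2 r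
    rw [Polynomial.map_sub, Polynomial.map_pow, map_X, map_C, eval_sub, eval_pow, eval_X, eval_C,
      hr, sub_self]

end primes

section count

/-- a lower bound for the number of elements which are not powers -/
theorem card_nr {k : Type} [Field k] [Finite k] {ℓ : ℕ} (hℓ : ℓ ≠ 0) {q : k} (hq0 : q ≠ 0)
    (hq : ∀ r : k, r ^ ℓ ≠ q) :
    Nat.card kˣ ≤ 2 * Nat.card {s : kˣ // ∀ r : k, r ^ ℓ ≠ s} := by
  classical
  haveI : Fintype k := Fintype.ofFinite k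
  haveI : Finite kˣ := inferInstance
  obtain ⟨H, hH⟩ : ∃ H : Subgroup kˣ, H = (powMonoidHom ℓ : kˣ →* kˣ).range := ⟨_, rfl⟩
  have hHm : ∀ s : kˣ, s ∈ H ↔ ∃ r : kˣ, r ^ ℓ = s := fun s => by
    rw [hH]
    exact Iff.rfl
  have hiff : ∀ s : kˣ, (∀ r : k, r ^ ℓ ≠ s) ↔ s ∉ H := by
    intro s
    rw [hHm]
    constructor
    · rintro h ⟨r, hr⟩
      apply h r
      rw [← hr, Units.val_pow_eq_pow_val]
    · intro h r hr
      apply h
      have hr0 : r ≠ 0 := by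
        rintro rfl
        rw [zero_pow hℓ] at hr
        exact s.ne_zero hr.symm
      exact ⟨Units.mk0 r hr0, Units.ext (by rw [Units.val_pow_eq_pow_val]; exact hr)⟩
  have hHne : H ≠ ⊤ := by
    intro h
    have h1 : Units.mk0 q hq0 ∈ H := by rw [h]; trivial
    rw [← not_not (a := Units.mk0 q hq0 ∈ H), ← hiff] at h1
    exact h1 fun r => hq r
  have h1 : Nat.card H * H.index = Nat.card kˣ := H.card_mul_index
  have h2 : 2 ≤ H.index := by
    have h3 : H.index ≠ 1 := fun h => hHne (Subgroup.index_eq_one.1 h)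
    have h4 : H.index ≠ 0 := Subgroup.index_ne_zero_of_finite
    omega
  have h3 : Nat.card {s : kˣ // ∀ r : k, r ^ ℓ ≠ s} + Nat.card H = Nat.card kˣ := by
    have h4 : Nat.card {s : kˣ // ∀ r : k, r ^ ℓ ≠ s} = Nat.card {s : kˣ // s ∉ H} :=
      Nat.card_congr (Equiv.subtypeEquivRight hiff)
    rw [h4, add_comm]
    have h5 := Nat.card_congr (Equiv.sumCompl fun s : kˣ => s ∈ H)
    rw [Nat.card_sum] at h5
    exact h5
  have h4 : 2 * Nat.card H ≤ Nat.card kˣ := by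
    rw [← h1, mul_comm]
    exact Nat.mul_le_mul_left _ h2
  omega

/-- the good triples modulo the square of a prime -/
def GG {A k : Type} [CommRing A] [Field k] (π : A →+* k) (ℓ : ℕ) : Set (A × A × A) :=
  {t | t.1 ≠ 0 ∧ π t.1 = 0 ∧ π t.2.1 ≠ 0 ∧ π t.2.2 ≠ 0 ∧ ∀ r : k, π t.2.1 * r ^ ℓ + π t.2.2 ≠ 0}

theorem card_GG {A k : Type} [CommRing A] [Field k] [Finite A] [Finite k] (π : A →+* k)
    (hπ : Function.Surjective π) {ℓ : ℕ} (hℓ : ℓ ≠ 0) {N : ℕ} (hA : Nat.card A = N ^ 2)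
    (hk : Nat.card k = N) {q : k} (hq0 : q ≠ 0) (hq : ∀ r : k, r ^ ℓ ≠ q) :
    (((GG π ℓ)ᶜ.ncard : ℕ) : ℝ) ≤ (1 - (1 / (N : ℝ) - 1 / (N : ℝ) ^ 2) / 8) * ((N : ℝ) ^ 2) ^ 3 := by
  classical
  haveI : Fintype k := Fintype.ofFinite k
  have hN2 : 2 ≤ N := by
    rw [← hk, Nat.card_eq_fintype_card]
    exact Fintype.one_lt_card
  -- the kernel
  have hker : Nat.card {a : A // π a = 0} = N := by
    have h1 := (π : A →+ k).ker.card_eq_card_quotient_mul_card_addSubgroup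
    have h2 : Nat.card (A ⧸ (π : A →+ k).ker) = N := by
      rw [← hk]
      exact Nat.card_congr (QuotientAddGroup.quotientKerEquivOfSurjective (π : A →+ k) hπ).toEquiv
    rw [h2, hA, sq] at h1
    have h3 : Nat.card {a : A // π a = 0} = Nat.card (π : A →+ k).ker :=
      Nat.card_congr (Equiv.subtypeEquivRight fun a => Iff.rfl)
    rw [h3]
    exact (Nat.eq_of_mul_eq_mul_left (by omega) h1).symm
  have hker0 : Nat.card {a : A // a ≠ 0 ∧ π a = 0} = N - 1 := by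
    have h1 : Nat.card {a : A // a ≠ 0 ∧ π a = 0} = (({a : A | π a = 0} : Set A) \ {0}).ncard := by
      rw [← Nat.card_coe_set_eq]
      refine Nat.card_congr (Equiv.subtypeEquivRight fun a => ?_)
      constructor
      · rintro ⟨h2, h3⟩
        exact ⟨h3, h2⟩
      · rintro ⟨h2, h3⟩
        exact ⟨h3, h2⟩
    rw [h1, Set.ncard_sdiff_singleton_of_mem (by exact map_zero π)]
    congr 1
  have hunits : Nat.card kˣ = N - 1 := by
    rw [Nat.card_units, hk]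
  have hnr := card_nr hℓ hq0 hq
  -- the injection
  let lift : k → A := Function.surjInv hπ
  have hlift : ∀ b, π (lift b) = b := Function.surjInv_eq hπ
  let D := {a : A // a ≠ 0 ∧ π a = 0} × ({a : A // π a = 0} × {a : A // π a = 0}) ×
    kˣ × {s : kˣ // ∀ r : k, r ^ ℓ ≠ s}
  let φ : D → GG π ℓ := fun d => ⟨(d.1.1, lift d.2.2.1 + d.2.1.1.1,
    lift (-(d.2.2.1 : k) * (d.2.2.2.1 : k)) + d.2.1.2.1), by
      obtain ⟨⟨a, ha0, ha⟩, ⟨⟨j₁, hj₁⟩, ⟨j₂, hj₂⟩⟩, b, ⟨s, hs⟩⟩ := d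
      refine ⟨ha0, ha, ?_, ?_, fun r => ?_⟩
      · change π (lift b + j₁) ≠ 0
        rw [map_add, hlift, hj₁, add_zero]
        exact b.ne_zero
      · change π (lift (-(b : k) * (s : k)) + j₂) ≠ 0
        rw [map_add, hlift, hj₂, add_zero]
        exact mul_ne_zero (neg_ne_zero.2 b.ne_zero) s.ne_zero
      · change π (lift b + j₁) * r ^ ℓ + π (lift (-(b : k) * (s : k)) + j₂) ≠ 0
        rw [map_add, hlift, hj₁, add_zero, map_add, hlift, hj₂, add_zero]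
        have h1 : (b : k) * r ^ ℓ + -(b : k) * (s : k) = b * (r ^ ℓ - s) := by ring
        rw [h1]
        exact mul_ne_zero b.ne_zero (sub_ne_zero.2 (hs r))⟩
  have hφ : Function.Injective φ := by
    rintro ⟨⟨a, ha0, ha⟩, ⟨⟨j₁, hj₁⟩, ⟨j₂, hj₂⟩⟩, b, ⟨s, hs⟩⟩
      ⟨⟨a', ha0', ha'⟩, ⟨⟨j₁', hj₁'⟩, ⟨j₂', hj₂'⟩⟩, b', ⟨s', hs'⟩⟩ h
    have h1 : (a, lift b + j₁, lift (-(b : k) * (s : k)) + j₂) =
        (a', lift b' + j₁', lift (-(b' : k) * (s' : k)) + j₂') := congrArg Subtype.val h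
    rw [Prod.mk.injEq, Prod.mk.injEq] at h1
    obtain ⟨h2, h3, h4⟩ := h1
    have h5 : b = b' := by
      have := congrArg π h3
      rw [map_add, map_add, hlift, hlift, hj₁, hj₁', add_zero, add_zero] at this
      exact Units.ext this
    have h6 : s = s' := by
      have := congrArg π h4
      rw [map_add, map_add, hlift, hlift, hj₂, hj₂', add_zero, add_zero, h5] at this
      exact Units.ext (mul_left_cancel₀ (neg_ne_zero.2 b'.ne_zero) this)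
    subst h2 h5 h6
    have h7 : j₁ = j₁' := add_left_cancel h3
    have h8 : j₂ = j₂' := add_left_cancel h4
    subst h7 h8
    rfl
  have hle : Nat.card D ≤ (GG π ℓ).ncard := by
    rw [← Nat.card_coe_set_eq]
    exact Nat.card_le_card_of_injective φ hφ
  have hD : Nat.card D = (N - 1) * ((N * N) * ((N - 1) *
      Nat.card {s : kˣ // ∀ r : k, r ^ ℓ ≠ s})) := by
    rw [Nat.card_prod, Nat.card_prod, Nat.card_prod, Nat.card_prod, hker0, hker, hunits]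
  rw [hunits] at hnr
  obtain ⟨M, hM⟩ : ∃ M : ℕ, M = Nat.card {s : kˣ // ∀ r : k, r ^ ℓ ≠ s} := ⟨_, rfl⟩
  rw [← hM] at hD hnr
  rw [hD] at hle
  have htot : (GG π ℓ).ncard + (GG π ℓ)ᶜ.ncard = (N ^ 2) ^ 3 := by
    rw [Set.ncard_add_ncard_compl, Nat.card_prod, Nat.card_prod, hA]
    ring
  -- the estimate
  have hNr : (2 : ℝ) ≤ N := by exact_mod_cast hN2
  have h1 : ((N - 1 : ℕ) : ℝ) = (N : ℝ) - 1 := by
    rw [Nat.cast_sub (by omega), Nat.cast_one]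
  have hle' : ((N : ℝ) - 1) * ((N * N) * (((N : ℝ) - 1) * M)) ≤ ((GG π ℓ).ncard : ℝ) := by
    have := (Nat.cast_le (α := ℝ)).2 hle
    push_cast at this
    rw [h1] at this
    exact this
  have hnr' : (N : ℝ) - 1 ≤ 2 * M := by
    have := (Nat.cast_le (α := ℝ)).2 hnr
    push_cast at this
    rw [h1] at this
    exact this
  have htot' : ((GG π ℓ).ncard : ℝ) + ((GG π ℓ)ᶜ.ncard : ℝ) = ((N : ℝ) ^ 2) ^ 3 := by
    exact_mod_cast htot
  have hN0 : (N : ℝ) ≠ 0 := by positivity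
  have h4 : (1 - (1 / (N : ℝ) - 1 / (N : ℝ) ^ 2) / 8) * ((N : ℝ) ^ 2) ^ 3 =
      ((N : ℝ) ^ 2) ^ 3 - (N : ℝ) ^ 4 * (N - 1) / 8 := by
    field_simp
  rw [h4]
  have h5 : (N : ℝ) ^ 4 * (N - 1) / 8 ≤ ((N : ℝ) - 1) * ((N * N) * (((N : ℝ) - 1) * M)) := by
    have h6 : ((N : ℝ) - 1) * ((N * N) * (((N : ℝ) - 1) * (((N : ℝ) - 1) / 2))) ≤
        ((N : ℝ) - 1) * ((N * N) * (((N : ℝ) - 1) * M)) := by
      have h7 : (0 : ℝ) ≤ (N : ℝ) - 1 := by linarith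
      gcongr
      linarith
    refine le_trans ?_ h6
    have h7 : (N : ℝ) ^ 2 ≤ 4 * ((N : ℝ) - 1) ^ 2 := by nlinarith
    have h8 : 0 ≤ (N : ℝ) ^ 2 * ((N : ℝ) - 1) := by
      have : (0 : ℝ) ≤ (N : ℝ) - 1 := by linarith
      positivity
    nlinarith
  linarith

/-- the counting part, for an abstract product -/
theorem count3 {R : Type} [CommRing R] (I : Ideal R) (ι : Type) [Fintype ι] (B : ι → Ideal R)
    (e : (R ⧸ I) ≃+* ((v : ι) → R ⧸ B v))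
    (he : ∀ (a : R) (v : ι), e (Ideal.Quotient.mk _ a) v = Ideal.Quotient.mk _ a)
    (hfin : ∀ v, Finite (R ⧸ B v)) (E : Set (R × R × R))
    (S : (v : ι) → Set ((R ⧸ B v) × (R ⧸ B v) × (R ⧸ B v)))
    (hE : ∀ t ∈ E, ∀ v, (Ideal.Quotient.mk (B v) t.1, Ideal.Quotient.mk (B v) t.2.1,
      Ideal.Quotient.mk (B v) t.2.2) ∈ S v) :
    ((fun t : R × R × R => (Ideal.Quotient.mk I t.1, Ideal.Quotient.mk I t.2.1,
      Ideal.Quotient.mk I t.2.2)) '' E).ncard ≤ ∏ v, (S v).ncard := by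
  let f : (R ⧸ I) × (R ⧸ I) × (R ⧸ I) → ((v : ι) → (R ⧸ B v) × (R ⧸ B v) × (R ⧸ B v)) :=
    fun t v => (e t.1 v, e t.2.1 v, e t.2.2 v)
  have hf : Function.Injective f := by
    rintro ⟨a, b, c⟩ ⟨a', b', c'⟩ h
    have h1 : ∀ v, e a v = e a' v ∧ e b v = e b' v ∧ e c v = e c' v := by
      intro v
      have h2 := congrFun h v
      rw [Prod.mk.injEq, Prod.mk.injEq] at h2
      exact h2
    rw [Prod.mk.injEq, Prod.mk.injEq]
    exact ⟨e.injective (funext fun v => (h1 v).1), e.injective (funext fun v => (h1 v).2.1),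
      e.injective (funext fun v => (h1 v).2.2)⟩
  have himg : (f '' ((fun t : R × R × R => (Ideal.Quotient.mk I t.1, Ideal.Quotient.mk I t.2.1,
      Ideal.Quotient.mk I t.2.2)) '' E)) ⊆ Set.pi Set.univ S := by
    rintro _ ⟨_, ⟨t, ht, rfl⟩, rfl⟩ v _
    change (e (Ideal.Quotient.mk _ t.1) v, e (Ideal.Quotient.mk _ t.2.1) v,
      e (Ideal.Quotient.mk _ t.2.2) v) ∈ S v
    rw [he, he, he]
    exact hE t ht v
  rw [← Set.ncard_image_of_injective _ hf]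
  have h2 : (Set.pi Set.univ S).ncard = ∏ v, (S v).ncard := by
    rw [← Nat.card_coe_set_eq, Nat.card_congr (Equiv.Set.univPi _), Nat.card_pi]
    simp_rw [Nat.card_coe_set_eq]
  rw [← h2]
  exact Set.ncard_le_ncard himg (Set.toFinite _)

/-- the elementary inequality -/
theorem ineq16 {t : ℝ} (h0 : 0 ≤ t) (h1 : t ≤ 1 / 2) : (1 - t / 8) ^ 16 ≤ 1 - t := by
  have h2 : (1 - t / 8) ^ 16 * (1 + 16 * (t / 8)) ≤ 1 := by
    have h3 : 1 + 16 * (t / 8) ≤ (1 + t / 8) ^ 16 := by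
      have := one_add_mul_le_pow (a := t / 8) (by linarith) 16
      exact_mod_cast this
    have h4 : (1 - t / 8) ^ 16 * (1 + t / 8) ^ 16 ≤ 1 := by
      rw [← mul_pow]
      have h5 : (1 - t / 8) * (1 + t / 8) = 1 - (t / 8) ^ 2 := by ring
      rw [h5]
      refine pow_le_one₀ ?_ ?_
      · nlinarith
      · nlinarith
    have h5 : 0 ≤ (1 - t / 8) ^ 16 := by positivity
    nlinarith
  have h3 : 1 ≤ (1 - t) * (1 + 16 * (t / 8)) := by nlinarith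
  have h4 : 0 < 1 + 16 * (t / 8) := by positivity
  by_contra hno
  push Not at hno
  have h5 : (1 - t) * (1 + 16 * (t / 8)) < (1 - t / 8) ^ 16 * (1 + 16 * (t / 8)) :=
    mul_lt_mul_of_pos_right hno h4
  linarith

end count

section final

variable {K : Type} [Field K] [NumberField K]

/-- **density** -/
theorem density3 {ℓ : ℕ} (hℓ : ℓ.Prime) (E : Set (𝓞 K × 𝓞 K × 𝓞 K))
    (hE : ∀ t ∈ E, ∀ v : HeightOneSpectrum (𝓞 K), ¬ Bad ℓ v t.1 t.2.1 t.2.2) (ε : ℝ)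
    (hε : 0 < ε) : ∃ I : Ideal (𝓞 K), I ≠ ⊥ ∧
      (Set.ncard ((fun t : 𝓞 K × 𝓞 K × 𝓞 K => (Ideal.Quotient.mk I t.1, Ideal.Quotient.mk I t.2.1,
        Ideal.Quotient.mk I t.2.2)) '' E) : ℝ) ≤ ε * (Nat.card (𝓞 K ⧸ I) : ℝ) ^ 3 := by
  classical
  obtain ⟨T, hT, hTε⟩ := exists_T (K := K) ℓ hℓ (ε ^ 16) (pow_pos hε 16)
  refine ⟨∏ v ∈ T, v.asIdeal ^ 2, ?_, ?_⟩
  · exact Finset.prod_ne_zero_iff.2 fun v _ => pow_ne_zero _ v.ne_bot
  obtain ⟨e, he⟩ := Pool.Agent.W417.SecC.D2.crt T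
  have hfin : ∀ v : T, Finite (𝓞 K ⧸ v.1.asIdeal ^ 2) := by
    intro v
    apply Nat.finite_of_card_ne_zero
    rw [Pool.Agent.W417.SecC.D2.card_sq]
    exact pow_ne_zero _ (Pool.Agent.W417.SecC.D2.norm_pos _).ne'
  have hmax : ∀ v : T, v.1.asIdeal.IsMaximal := fun v => v.1.isMaximal
  letI hfld : ∀ v : T, Field (𝓞 K ⧸ v.1.asIdeal) := fun v => Ideal.Quotient.field _
  have hle : ∀ v : T, v.1.asIdeal ^ 2 ≤ v.1.asIdeal := fun v => Ideal.pow_le_self two_ne_zero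
  let π : ∀ v : T, (𝓞 K ⧸ v.1.asIdeal ^ 2) →+* (𝓞 K ⧸ v.1.asIdeal) := fun v =>
    Ideal.Quotient.factor (hle v)
  have hπmk : ∀ (v : T) (a : 𝓞 K), π v (Ideal.Quotient.mk _ a) = Ideal.Quotient.mk _ a :=
    fun v a => Ideal.Quotient.factor_mk (hle v) a
  have hπ : ∀ v : T, Function.Surjective (π v) := by
    intro v b
    obtain ⟨a, rfl⟩ := Ideal.Quotient.mk_surjective b
    exact ⟨Ideal.Quotient.mk _ a, hπmk v a⟩
  have hcard : (Nat.card (𝓞 K ⧸ ∏ v ∈ T, v.asIdeal ^ 2) : ℝ) =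
      ∏ v ∈ T, (Ideal.absNorm v.asIdeal : ℝ) ^ 2 := by
    rw [Nat.card_congr e.toEquiv, Nat.card_pi, ← Finset.prod_coe_sort T]
    push_cast
    refine Finset.prod_congr rfl fun v _ => ?_
    rw [Pool.Agent.W417.SecC.D2.card_sq]
    push_cast
    rfl
  have h1 := count3 (∏ v ∈ T, v.asIdeal ^ 2) T (fun v => v.1.asIdeal ^ 2) e he hfin E
    (fun v => (GG (π v) ℓ)ᶜ) (by
      rintro ⟨a, b, c⟩ ht v hG
      refine hE _ ht v.1 ⟨(hT v.1 v.2).1, ?_, ?_, ?_, ?_, fun r => ?_⟩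
      · have h2 := hG.2.1
        rw [hπmk, Ideal.Quotient.eq_zero_iff_mem] at h2
        exact h2
      · have h2 := hG.1
        rw [Ne, Ideal.Quotient.eq_zero_iff_mem] at h2
        exact h2
      · have h2 := hG.2.2.1
        rw [hπmk, Ne, Ideal.Quotient.eq_zero_iff_mem] at h2
        exact h2
      · have h2 := hG.2.2.2.1
        rw [hπmk, Ne, Ideal.Quotient.eq_zero_iff_mem] at h2
        exact h2
      · have h2 := hG.2.2.2.2 (Ideal.Quotient.mk _ r)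
        rw [hπmk, hπmk, ← map_pow, ← map_mul, ← map_add, Ne, Ideal.Quotient.eq_zero_iff_mem] at h2
        exact h2)
  have h1' := (Nat.cast_le (α := ℝ)).2 h1
  refine h1'.trans ?_
  rw [hcard, Nat.cast_prod]
  have h2 : ∏ v : T, (((GG (π v) ℓ)ᶜ.ncard : ℕ) : ℝ) ≤
      ∏ v : T, ((1 - (1 / (Ideal.absNorm v.1.asIdeal : ℝ) -
        1 / (Ideal.absNorm v.1.asIdeal : ℝ) ^ 2) / 8) *
        ((Ideal.absNorm v.1.asIdeal : ℝ) ^ 2) ^ 3) := by
    refine Finset.prod_le_prod (fun _ _ => by positivity) fun v _ => ?_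
    obtain ⟨q, hq0, hq⟩ := (hT v.1 v.2).2
    haveI : Finite (𝓞 K ⧸ v.1.asIdeal) := Ideal.finiteQuotientOfFreeOfNeBot _ v.1.ne_bot
    exact card_GG (π v) (hπ v) hℓ.ne_zero (Pool.Agent.W417.SecC.D2.card_sq v.1) rfl hq0 hq
  refine h2.trans ?_
  have hprod : (∏ v ∈ T, (Ideal.absNorm v.asIdeal : ℝ) ^ 2) ^ 3 =
      ∏ v ∈ T, ((Ideal.absNorm v.asIdeal : ℝ) ^ 2) ^ 3 := (Finset.prod_pow _ _ _).symm
  rw [Finset.prod_coe_sort T (fun v => ((1 - (1 / (Ideal.absNorm v.asIdeal : ℝ) -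
        1 / (Ideal.absNorm v.asIdeal : ℝ) ^ 2) / 8) *
        ((Ideal.absNorm v.asIdeal : ℝ) ^ 2) ^ 3)), Finset.prod_mul_distrib, hprod]
  refine mul_le_mul_of_nonneg_right ?_ (Finset.prod_nonneg fun _ _ => by positivity)
  -- the product
  have hnorm : ∀ v ∈ T, (2 : ℝ) ≤ Ideal.absNorm v.asIdeal := by
    intro v hv
    have h3 : Ideal.absNorm v.asIdeal ≠ 1 := by
      rw [Ne, Ideal.absNorm_eq_one_iff]
      exact v.isPrime.ne_top
    have h4 := Pool.Agent.W417.SecC.D2.norm_pos v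
    have h5 : 2 ≤ Ideal.absNorm v.asIdeal := by omega
    exact_mod_cast h5
  have ht : ∀ v ∈ T, 0 ≤ 1 / (Ideal.absNorm v.asIdeal : ℝ) -
      1 / (Ideal.absNorm v.asIdeal : ℝ) ^ 2 ∧ 1 / (Ideal.absNorm v.asIdeal : ℝ) -
      1 / (Ideal.absNorm v.asIdeal : ℝ) ^ 2 ≤ 1 / 2 := by
    intro v hv
    have h3 := hnorm v hv
    have h4 : (0 : ℝ) < Ideal.absNorm v.asIdeal := by linarith
    constructor
    · rw [sub_nonneg]
      apply one_div_le_one_div_of_le h4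
      nlinarith
    · have h5 : 1 / (Ideal.absNorm v.asIdeal : ℝ) ≤ 1 / 2 := one_div_le_one_div_of_le two_pos h3
      have h6 : 0 ≤ 1 / (Ideal.absNorm v.asIdeal : ℝ) ^ 2 := by positivity
      linarith
  have hpow : (∏ v ∈ T, (1 - (1 / (Ideal.absNorm v.asIdeal : ℝ) -
        1 / (Ideal.absNorm v.asIdeal : ℝ) ^ 2) / 8)) ^ 16 < ε ^ 16 := by
    refine lt_of_le_of_lt ?_ hTε
    rw [← Finset.prod_pow]
    refine Finset.prod_le_prod (fun v hv => ?_) fun v hv => ineq16 (ht v hv).1 (ht v hv).2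
    have h3 := (ht v hv).2
    positivity
  exact (lt_of_pow_lt_pow_left₀ 16 hε.le hpow).le

end final

end Pool.Agent.Helper786_Fer
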