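import Pool.Agent.Helper786_Fer.Loc2
import Pool.Agent.Y674.PS.Fun
import Pool.Agent.Y158.FQ.Fin

/-!
# Generalized Fermat curves: curves with a map to them
-/

set_option autoImplicit false
set_option linter.all false

open Polynomial FF Pool.Agent.Y157.PS Pool.Agent.Y158.GR IsDedekindDomain NumberField

namespace Pool.Agent.Helper786_Fer

section main

variable {K F Ω : Type} [Field K] [NumberField K]
    [Field F] [Field Ω] [Algebra K F] [Algebra F Ω] [Algebra K Ω] [IsScalarTower K F Ω]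
    [IsAlgClosed Ω] [Algebra.IsAlgebraic F Ω]

theorem noSec {ℓ : ℕ} [hℓ : Fact ℓ.Prime] {v : HeightOneSpectrum (𝓞 K)} {a b c : 𝓞 K}
    (hbad : Bad ℓ v a b c) {j : ℕ} (hj : 1 ≤ j) (h3 : 3 ≤ ℓ ^ j) {n : ℕ} (hn0 : n ≠ 0)
    (hn : ℓ ^ j ∣ n) (x y : F) (hx : Transcendental K x)
    (hFx : Algebra.IsAlgebraic (IntermediateField.adjoin K {x}) F)
    (hxy : algebraMap K F (algebraMap (𝓞 K) K a) * x ^ n +
      algebraMap K F (algebraMap (𝓞 K) K b) * y ^ n + algebraMap K F (algebraMap (𝓞 K) K c) = 0)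
    (U : Set (ValuationSubring F)) (hU : ∀ O ∈ U, ∀ c : K, algebraMap K F c ∈ O)
    (N : IntermediateField F Ω) (hN : Pool.Agent.W620.SC.unramified F Ω U ≤ N)
    (S : (algebraicClosure K Ω ≃ₐ[K] algebraicClosure K Ω) →* (N ≃ₐ[F] N)) (hcont : Continuous S)
    (hcompat : ∀ σ (c : algebraicClosure K Ω) (z : N), (z : Ω) = (c : Ω) →
      (S σ z : Ω) = (σ c : Ω)) : False := by
  classical
  have hℓ0 : ℓ ≠ 0 := hℓ.out.ne_zero
  obtain ⟨n₁, hn₁⟩ := hn
  have hn₁0 : n₁ ≠ 0 := by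
    rintro rfl
    rw [mul_zero] at hn₁
    exact hn0 hn₁
  obtain ⟨n₂, hn₂⟩ : ∃ n₂ : ℕ, n = n₂ * ℓ := by
    obtain ⟨i, rfl⟩ := Nat.exists_eq_succ_of_ne_zero (by omega : j ≠ 0)
    exact ⟨ℓ ^ i * n₁, by rw [hn₁, pow_succ]; ring⟩
  obtain ⟨F₀, hF₀⟩ : ∃ F₀ : IntermediateField K F,
    F₀ = IntermediateField.adjoin K {x ^ n₁, y ^ n₂} := ⟨_, rfl⟩
  have hxm : x ^ n₁ ∈ F₀ := by
    rw [hF₀]; exact IntermediateField.subset_adjoin K _ (by simp)
  have hym : y ^ n₂ ∈ F₀ := by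
    rw [hF₀]; exact IntermediateField.subset_adjoin K _ (by simp)
  haveI hFF : Algebra.IsAlgebraic F₀ F := alg_sub hFx F₀ hn₁0 hxm
  haveI hFΩ : Algebra.IsAlgebraic F₀ Ω := Algebra.IsAlgebraic.trans F₀ F Ω
  have htop : IntermediateField.adjoin K {(⟨x ^ n₁, hxm⟩ : F₀), ⟨y ^ n₂, hym⟩} =
      (⊤ : IntermediateField K F₀) := by
    apply IntermediateField.map_injective F₀.val
    rw [IntermediateField.adjoin_map, Set.image_pair, ← AlgHom.fieldRange_eq_map,
      IntermediateField.fieldRange_val]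
    exact hF₀.symm
  have hxt : Transcendental K (x ^ n₁) := fun h =>
    hx (IsAlgebraic.of_pow (Nat.pos_of_ne_zero hn₁0) h)
  have hx0 : Transcendental K (⟨x ^ n₁, hxm⟩ : F₀) := by
    rw [← transcendental_algebraMap_iff (R := K) (A := F) (algebraMap F₀ F).injective]
    exact hxt
  have hinj : Function.Injective (algebraMap (𝓞 K) K) := IsFractionRing.injective (𝓞 K) K
  have hb0 : algebraMap (𝓞 K) K b ≠ 0 := by
    rw [Ne, map_eq_zero_iff _ hinj]
    rintro rfl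
    exact hbad.hb (zero_mem _)
  have hxy0 : algebraMap K F₀ (algebraMap (𝓞 K) K a) * (⟨x ^ n₁, hxm⟩ : F₀) ^ (ℓ ^ j) +
      algebraMap K F₀ (algebraMap (𝓞 K) K b) * (⟨y ^ n₂, hym⟩ : F₀) ^ ℓ +
      algebraMap K F₀ (algebraMap (𝓞 K) K c) = 0 := by
    apply Subtype.ext
    change algebraMap K F (algebraMap (𝓞 K) K a) * (x ^ n₁) ^ (ℓ ^ j) +
      algebraMap K F (algebraMap (𝓞 K) K b) * (y ^ n₂) ^ ℓ +
      algebraMap K F (algebraMap (𝓞 K) K c) = 0
    rw [← pow_mul, ← pow_mul, mul_comm n₁, ← hn₁, ← hn₂, hxy]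
  have halg : Algebra.IsAlgebraic (IntermediateField.adjoin K {(⟨x ^ n₁, hxm⟩ : F₀)}) F₀ :=
    Pool.Agent.R925.L.alg_eqn (m := ℓ ^ j) hℓ.out.pos
      (-(X + C (algebraMap (𝓞 K) K c))) (algebraMap (𝓞 K) K a) (algebraMap (𝓞 K) K b) hb0
      (⟨x ^ n₁, hxm⟩ : F₀) ⟨y ^ n₂, hym⟩ (by
      rw [map_neg, map_add, aeval_X, aeval_C]
      linear_combination hxy0) htop
  haveI : IsAlgClosure F₀ Ω := ⟨inferInstance, inferInstance⟩
  obtain ⟨-, hst⟩ := a_inrt ℓ K F₀ Ω (⟨x ^ n₁, hxm⟩ : F₀) hx0 halg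
  have hFxm : Algebra.IsAlgebraic (IntermediateField.adjoin K {x ^ n₁}) F :=
    alg_sub hFx _ hn₁0 (IntermediateField.mem_adjoin_simple_self K _)
  have hGN : ∀ z ∈ geomPro ℓ K F₀ Ω, z ∈ N := fun z hz =>
    hN (Pool.Agent.Y158.FQ.geomPro_unr' ℓ (x ^ n₁) hxt hFxm F₀ hxm U hU z hz)
  obtain ⟨Φ, hΦc, hΦ⟩ := Pool.Agent.Y674.PS.restr' (F₀ := F₀) (Ω₀ := Ω) (F := F) (Ω := Ω)
    (algebraMap F₀ F) (RingHom.id Ω) (fun a => rfl) (geomPro ℓ K F₀ Ω) N hGN (fun σ z hz =>
      ⟨σ z, hst (σ.restrictScalars F₀) z hz, rfl⟩)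
  refine noSec₀ (K := K) (F := F₀) (Ω := Ω) hbad hj h3 (⟨x ^ n₁, hxm⟩ : F₀) ⟨y ^ n₂, hym⟩ hx0 hxy0
    htop (Φ.comp S) (hΦc.comp hcont) ?_
  intro σ c z hz
  have h1 := hΦ (S σ) ⟨(z : Ω), hGN _ z.2⟩ z rfl
  exact h1.trans (hcompat σ c _ hz)

end main

section points

variable {K : Type} [Field K] [NumberField K]

/-- the valuation of `a` -/
theorem Bad.val_a {ℓ : ℕ} {v : HeightOneSpectrum (𝓞 K)} {a b c : 𝓞 K} (h : Bad ℓ v a b c) :
    v.valuation K (algebraMap (𝓞 K) K a) = WithZero.exp (-1 : ℤ) := by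
  have ha0 : a ≠ 0 := by
    rintro rfl
    exact h.ha' (zero_mem _)
  rw [v.valuation_of_algebraMap]
  apply le_antisymm
  · have h6 := (v.intValuation_le_pow_iff_mem a 1).2 (by rw [pow_one]; exact h.ha)
    exact_mod_cast h6
  · by_contra hno
    apply h.ha'
    rw [← v.intValuation_le_pow_iff_mem]
    have h6 := lt_of_not_ge hno
    obtain ⟨n, hn⟩ := Pool.Agent.Y158.KL.exists_exp (v.intValuation_ne_zero a ha0)
    rw [hn, WithZero.exp_lt_exp] at h6
    rw [hn, WithZero.exp_le_exp]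
    push_cast
    omega

theorem val_unit {v : HeightOneSpectrum (𝓞 K)} {b : 𝓞 K} (hb : b ∉ v.asIdeal) :
    v.valuation K (algebraMap (𝓞 K) K b) = 1 := by
  rw [v.valuation_of_algebraMap, v.intValuation_eq_one_iff]
  exact hb

/-- `exp (-1)` is not an `n`-th power -/
theorem exp_not_pow {n : ℕ} (hn : 2 ≤ n) {s t : WithZero (Multiplicative ℤ)} (ht : t ≠ 0)
    (h : WithZero.exp (-1 : ℤ) * s ^ n = t ^ n) : False := by
  have hn0 : n ≠ 0 := by omega
  have hs : s ≠ 0 := by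
    rintro rfl
    rw [zero_pow hn0, mul_zero] at h
    exact pow_ne_zero _ ht h.symm
  obtain ⟨p, hp⟩ := Pool.Agent.Y158.KL.exists_exp hs
  obtain ⟨q, hq⟩ := Pool.Agent.Y158.KL.exists_exp ht
  rw [hp, hq, Pool.Agent.Y158.KL.exp_pow, Pool.Agent.Y158.KL.exp_pow, ← WithZero.exp_add,
    WithZero.exp_inj] at h
  have h1 : (n : ℤ) ∣ 1 := ⟨p - q, by linear_combination -h⟩
  have h2 : n ∣ 1 := by exact_mod_cast h1
  have h3 := Nat.le_of_dvd one_pos h2
  omega

/-- no rational points -/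
theorem noPt {ℓ : ℕ} [hℓ : Fact ℓ.Prime] {v : HeightOneSpectrum (𝓞 K)} {a b c : 𝓞 K}
    (hbad : Bad ℓ v a b c) {n : ℕ} (hn0 : n ≠ 0) (hn : ℓ ∣ n) (x y z : K)
    (h : algebraMap (𝓞 K) K a * x ^ n + algebraMap (𝓞 K) K b * y ^ n +
      algebraMap (𝓞 K) K c * z ^ n = 0) : x = 0 ∧ y = 0 ∧ z = 0 := by
  have hn2 : 2 ≤ n := hℓ.out.two_le.trans (Nat.le_of_dvd (Nat.pos_of_ne_zero hn0) hn)
  have hva := hbad.val_a
  have hvb := val_unit hbad.hb
  have hvc := val_unit hbad.hc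
  have hax : algebraMap (𝓞 K) K a * x ^ n =
      -(algebraMap (𝓞 K) K b * y ^ n + algebraMap (𝓞 K) K c * z ^ n) := by
    linear_combination h
  have hvy : v.valuation K (algebraMap (𝓞 K) K b * y ^ n) = v.valuation K y ^ n := by
    rw [map_mul, hvb, one_mul, map_pow]
  have hvz : v.valuation K (algebraMap (𝓞 K) K c * z ^ n) = v.valuation K z ^ n := by
    rw [map_mul, hvc, one_mul, map_pow]
  have hvx : v.valuation K (algebraMap (𝓞 K) K a * x ^ n) =
      WithZero.exp (-1 : ℤ) * v.valuation K x ^ n := by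
    rw [map_mul, hva, map_pow]
  have hyz : v.valuation K y = v.valuation K z := by
    by_contra hne
    have hne' : v.valuation K y ^ n ≠ v.valuation K z ^ n := fun h1 =>
      hne ((pow_left_inj₀ zero_le zero_le hn0).1 h1)
    rcases lt_or_gt_of_ne hne' with h1 | h1
    · have h2 : v.valuation K (algebraMap (𝓞 K) K b * y ^ n + algebraMap (𝓞 K) K c * z ^ n) =
          v.valuation K z ^ n := by
        rw [Valuation.map_add_eq_of_lt_right _ (by rw [hvy, hvz]; exact h1), hvz]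
      have h3 : WithZero.exp (-1 : ℤ) * v.valuation K x ^ n = v.valuation K z ^ n := by
        rw [← hvx, hax, Valuation.map_neg, h2]
      refine exp_not_pow hn2 ?_ h3
      intro h4
      rw [h4, zero_pow hn0] at h1
      exact not_lt_zero h1
    · have h2 : v.valuation K (algebraMap (𝓞 K) K b * y ^ n + algebraMap (𝓞 K) K c * z ^ n) =
          v.valuation K y ^ n := by
        rw [Valuation.map_add_eq_of_lt_left _ (by rw [hvy, hvz]; exact h1), hvy]
      have h3 : WithZero.exp (-1 : ℤ) * v.valuation K x ^ n = v.valuation K y ^ n := by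
        rw [← hvx, hax, Valuation.map_neg, h2]
      refine exp_not_pow hn2 ?_ h3
      intro h4
      rw [h4, zero_pow hn0] at h1
      exact not_lt_zero h1
  by_cases hz : z = 0
  · have hy : y = 0 := by
      rw [hz, map_zero, map_eq_zero] at hyz
      exact hyz
    refine ⟨?_, hy, hz⟩
    rw [hy, hz, zero_pow hn0, mul_zero, add_zero, mul_zero, add_zero, mul_eq_zero] at h
    rcases h with h1 | h1
    · exfalso
      rw [h1, map_zero] at hva
      exact WithZero.exp_ne_zero hva.symm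
    · exact pow_eq_zero_iff hn0 |>.1 h1
  · exfalso
    have hvz0 : v.valuation K z ≠ 0 := (Valuation.ne_zero_iff _).2 hz
    have hu1 : v.valuation K (y / z) = 1 := by rw [map_div₀, hyz, div_self hvz0]
    have h1 : algebraMap (𝓞 K) K a * (x / z) ^ n =
        -(algebraMap (𝓞 K) K b * (y / z) ^ n + algebraMap (𝓞 K) K c) := by
      rw [div_pow, div_pow]
      field_simp
      linear_combination h
    obtain ⟨r, hr⟩ := Pool.Agent.Y158.KL.near_int v (algebraMap K (v.adicCompletion K) (y / z))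
      (by rw [Pool.Agent.Y158.KL.Vv_coe, hu1]) 1
    rw [← map_sub, Pool.Agent.Y158.KL.Vv_coe] at hr
    have hr1 : v.valuation K (y / z - algebraMap (𝓞 K) K r) < 1 := by
      refine lt_of_le_of_lt hr ?_
      rw [← WithZero.exp_zero, WithZero.exp_lt_exp]
      norm_num
    obtain ⟨n₁, hn₁⟩ := hn
    have hmem : v.valuation K (algebraMap (𝓞 K) K (b * (r ^ n₁) ^ ℓ + c)) = 1 := by
      exact val_unit (hbad.hr _)
    -- the sum is a unit
    have hdiff : v.valuation K ((y / z) ^ n - algebraMap (𝓞 K) K r ^ n) < 1 := by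
      have hrint : v.valuation K (algebraMap (𝓞 K) K r) ≤ 1 := by
        rw [v.valuation_of_algebraMap]
        exact v.intValuation_le_one r
      obtain ⟨w, hw⟩ := sub_dvd_pow_sub_pow (⟨y / z, hu1.le⟩ : (v.valuation K).integer)
        ⟨algebraMap (𝓞 K) K r, hrint⟩ n
      have h9 : (y / z) ^ n - algebraMap (𝓞 K) K r ^ n =
          (y / z - algebraMap (𝓞 K) K r) * (w : K) := congrArg Subtype.val hw
      rw [h9, map_mul]
      exact lt_of_le_of_lt (mul_le_of_le_one_right zero_le w.2) hr1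
    have h2 : v.valuation K (algebraMap (𝓞 K) K b * (y / z) ^ n + algebraMap (𝓞 K) K c) = 1 := by
      have h3 : algebraMap (𝓞 K) K b * (y / z) ^ n + algebraMap (𝓞 K) K c =
          algebraMap (𝓞 K) K b * ((y / z) ^ n - algebraMap (𝓞 K) K r ^ n) +
            algebraMap (𝓞 K) K (b * (r ^ n₁) ^ ℓ + c) := by
        rw [map_add, map_mul, map_pow, map_pow, ← pow_mul, mul_comm n₁ ℓ, ← hn₁]
        ring
      rw [h3, Valuation.map_add_eq_of_lt_right, hmem]
      rw [hmem, map_mul, hvb, one_mul]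
      exact hdiff
    have h3 : WithZero.exp (-1 : ℤ) * v.valuation K (x / z) ^ n = 1 ^ n := by
      rw [one_pow, ← h2, ← hva, ← map_pow, ← map_mul, h1, Valuation.map_neg]
    exact exp_not_pow hn2 one_ne_zero h3

end points

end Pool.Agent.Helper786_Fer
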