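import Pool.Agent.R925.L.Fin
import Pool.Agent.R925.L.NF
import Pool.Agent.Y183.PS.Tau
import Pool.Agent.Y158.GR.NumV
import Pool.Agent.Y158.GR.Gen

/-!
# Generalized Fermat curves at a prime which divides one coefficient: local part
-/

set_option autoImplicit false
set_option linter.all false

open Polynomial FF Pool.Agent.Y157.PS Pool.Agent.Y158.GR IsDedekindDomain NumberField

namespace Pool.Agent.Helper786_Fer

section fro

variable {K κ : Type} [Field K] [NumberField K] [Field κ] [Algebra K κ] [IsAlgClosure K κ]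

/-- the local ring of `v` as an abstract ring -/
theorem exists_local (v : HeightOneSpectrum (𝓞 K)) : ∃ (A : Type) (_ : CommRing A) (_ : IsDomain A)
    (_ : IsDiscreteValuationRing A) (_ : Algebra A K), IsFractionRing A K ∧
      Nonempty ((𝓞 K ⧸ v.asIdeal) ≃+* IsLocalRing.ResidueField A) ∧
      ∀ (κ : Type) [Field κ] [Algebra K κ] (V : ValuationSubring κ),
        (∀ c ∈ v.asIdeal, algebraMap K κ (algebraMap (𝓞 K) K c) ∈ V.nonunits) →
        (∀ a : A, algebraMap K κ (algebraMap A K a) ∈ V) ∧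
        ∀ a ∈ IsLocalRing.maximalIdeal A, algebraMap K κ (algebraMap A K a) ∈ V.nonunits := by
  classical
  have hvm : v.asIdeal.IsMaximal := v.isMaximal
  have hvp : v.asIdeal.IsPrime := v.isPrime
  have hle : v.asIdeal.primeCompl ≤ nonZeroDivisors (𝓞 K) := v.asIdeal.primeCompl_le_nonZeroDivisors
  let A := Localization.subalgebra.ofField K v.asIdeal.primeCompl hle
  have hloc : IsLocalization.AtPrime A v.asIdeal :=
    Localization.subalgebra.isLocalization_ofField K v.asIdeal.primeCompl hle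
  have hdvr : IsDiscreteValuationRing A :=
    IsLocalization.AtPrime.isDiscreteValuationRing_of_dedekind_domain (𝓞 K) v.ne_bot A
  have hfr : IsFractionRing A K := inferInstance
  let e : (𝓞 K ⧸ v.asIdeal) ≃+* IsLocalRing.ResidueField A :=
    IsLocalization.AtPrime.equivQuotMaximalIdeal v.asIdeal A
  refine ⟨A, inferInstance, inferInstance, hdvr, inferInstance, hfr, ⟨e⟩, ?_⟩
  intro κ _ _ V hV
  set i : 𝓞 K →+* κ := (algebraMap K κ).comp (algebraMap (𝓞 K) K) with hi
  have hint : ∀ c : 𝓞 K, i c ∈ V := by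
    intro c
    have h1 : IsIntegral ℤ c := RingOfIntegers.isIntegral c
    have h2 : IsIntegral ℤ (i c) := h1.map (i.toIntAlgHom)
    have h3 : IsIntegral V (i c) := h2.tower_top
    obtain ⟨y, hy⟩ := IsIntegrallyClosed.isIntegral_iff.1 h3
    rw [← hy]
    exact y.2
  have hU : ∀ c : 𝓞 K, c ∉ v.asIdeal → IsU V (i c) := by
    intro c hc
    refine isU_of_not_nonunit (hint c) fun hnn => ?_
    obtain ⟨c', hc'⟩ := Ideal.Quotient.maximal_ideal_iff_isField_quotient v.asIdeal |>.1 hvm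
      |>.mul_inv_cancel (a := Ideal.Quotient.mk v.asIdeal c) (by
        rw [Ne, Ideal.Quotient.eq_zero_iff_mem]; exact hc)
    obtain ⟨c', rfl⟩ := Ideal.Quotient.mk_surjective c'
    rw [← map_mul, ← map_one (Ideal.Quotient.mk v.asIdeal), Ideal.Quotient.eq] at hc'
    have h1 := hV _ hc'
    have h2 : algebraMap K κ (algebraMap (𝓞 K) K (c * c' - 1)) = i c' * i c - 1 := by
      change i (c * c' - 1) = _
      rw [map_sub, map_mul, map_one, mul_comm]
    rw [h2] at h1
    have h3 : (1 : κ) ∈ V.nonunits := by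
      have h4 : (1 : κ) = i c' * i c - (i c' * i c - 1) := by ring
      rw [h4]
      exact non_sub (non_mul (hint c') hnn) h1
    exact isU_one.not_nonunit h3
  have hfrac : ∀ a : A, ∃ c d : 𝓞 K, d ∉ v.asIdeal ∧ a * algebraMap (𝓞 K) A d =
      algebraMap (𝓞 K) A c := by
    intro a
    obtain ⟨⟨c, d⟩, h⟩ := IsLocalization.surj (M := v.asIdeal.primeCompl) a
    exact ⟨c, d, d.2, h⟩
  have himg : ∀ (a : A) (c d : 𝓞 K), d ∉ v.asIdeal → a * algebraMap (𝓞 K) A d =
      algebraMap (𝓞 K) A c → algebraMap K κ (algebraMap A K a) = (i d)⁻¹ * i c := by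
    intro a c d hd h
    have h1 := congrArg (fun z => algebraMap K κ (algebraMap A K z)) h
    simp only [map_mul] at h1
    have h2 : ∀ c : 𝓞 K, algebraMap K κ (algebraMap A K (algebraMap (𝓞 K) A c)) = i c := fun c =>
      rfl
    rw [h2, h2] at h1
    rw [← h1, mul_comm, mul_assoc, mul_inv_cancel₀ (hU d hd).1, mul_one]
  constructor
  · intro a
    obtain ⟨c, d, hd, h⟩ := hfrac a
    rw [himg a c d hd h]
    exact mul_mem (hU d hd).2.2 (hint c)
  · intro a ha
    obtain ⟨c, d, hd, h⟩ := hfrac a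
    rw [himg a c d hd h]
    refine non_mul (hU d hd).2.2 (hV c ?_)
    rw [← IsLocalization.AtPrime.to_map_mem_maximal_iff A v.asIdeal c, ← h]
    exact Ideal.mul_mem_right _ _ ha

/-- a Frobenius element -/
theorem fro_num (v : HeightOneSpectrum (𝓞 K)) (V : ValuationSubring κ)
    (hV : ∀ c ∈ v.asIdeal, algebraMap K κ (algebraMap (𝓞 K) K c) ∈ V.nonunits) :
    ∃ φ : κ ≃ₐ[K] κ, Fro V (Nat.card (𝓞 K ⧸ v.asIdeal)) φ := by
  classical
  obtain ⟨A, i1, i2, i3, i4, hfr, ⟨e⟩, hA⟩ := exists_local v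
  letI : Algebra A κ := ((algebraMap K κ).comp (algebraMap A K)).toAlgebra
  haveI : IsScalarTower A K κ := IsScalarTower.of_algebraMap_eq fun _ => rfl
  have hfin : Finite (IsLocalRing.ResidueField A) := by
    have h1 : Finite (𝓞 K ⧸ v.asIdeal) := Ideal.finiteQuotientOfFreeOfNeBot _ v.ne_bot
    exact Finite.of_equiv _ e.toEquiv
  obtain ⟨φ, hφ⟩ := Pool.Agent.Y183.PS.fro A K κ V (hA κ V hV).1 (hA κ V hV).2
  rw [← Nat.card_congr e.toEquiv] at hφ
  exact ⟨φ, hφ⟩

/-- elements fixed by Frobenius are congruent to integers of `K` -/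
theorem res_fix (v : HeightOneSpectrum (𝓞 K)) (V : ValuationSubring κ)
    (hV : ∀ c ∈ v.asIdeal, algebraMap K κ (algebraMap (𝓞 K) K c) ∈ V.nonunits)
    {φ : κ ≃ₐ[K] κ} (hφ : Fro V (Nat.card (𝓞 K ⧸ v.asIdeal)) φ) {e : κ} (he : e ∈ V)
    (hfix : φ e = e) : ∃ r : 𝓞 K, e - algebraMap K κ (algebraMap (𝓞 K) K r) ∈ V.nonunits := by
  classical
  haveI : v.asIdeal.IsMaximal := v.isMaximal
  letI : Field (𝓞 K ⧸ v.asIdeal) := Ideal.Quotient.field _
  have hfin : Finite (𝓞 K ⧸ v.asIdeal) := Ideal.finiteQuotientOfFreeOfNeBot _ v.ne_bot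
  letI : Fintype (𝓞 K ⧸ v.asIdeal) := Fintype.ofFinite _
  have hmem : ∀ c : 𝓞 K, algebraMap K κ (algebraMap (𝓞 K) K c) ∈ V := by
    intro c
    have h1 : IsIntegral ℤ c := RingOfIntegers.isIntegral c
    have h2 : IsIntegral ℤ (algebraMap K κ (algebraMap (𝓞 K) K c)) :=
      h1.map ((algebraMap K κ).comp (algebraMap (𝓞 K) K)).toIntAlgHom
    have h3 : IsIntegral V (algebraMap K κ (algebraMap (𝓞 K) K c)) := h2.tower_top
    obtain ⟨y, hy⟩ := IsIntegrallyClosed.isIntegral_iff.1 h3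
    rw [← hy]
    exact y.2
  let i : 𝓞 K →+* V :=
    ((algebraMap K κ).comp (algebraMap (𝓞 K) K)).codRestrict V.toSubring hmem
  have hi : ∀ c, ((i c : V) : κ) = algebraMap K κ (algebraMap (𝓞 K) K c) := fun c => rfl
  have hnon : ∀ z : V, IsLocalRing.residue V z = 0 ↔ (z : κ) ∈ V.nonunits := by
    intro z
    rw [IsLocalRing.residue_eq_zero_iff]
    rw [ValuationSubring.mem_nonunits_iff_exists_mem_maximalIdeal]
    constructor
    · intro h
      exact ⟨z.2, h⟩
    · rintro ⟨h1, h2⟩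
      exact h2
  let f : (𝓞 K ⧸ v.asIdeal) →+* IsLocalRing.ResidueField V :=
    Ideal.Quotient.lift v.asIdeal ((IsLocalRing.residue V).comp i) (by
      intro c hc
      rw [RingHom.comp_apply, hnon, hi]
      exact hV c hc)
  have hf : ∀ c, f (Ideal.Quotient.mk _ c) = IsLocalRing.residue V (i c) := fun c => rfl
  obtain ⟨q, hq⟩ : ∃ q : ℕ, q = Nat.card (𝓞 K ⧸ v.asIdeal) := ⟨_, rfl⟩
  rw [← hq] at hφ
  have hq1 : 1 < q := by
    rw [hq, Nat.card_eq_fintype_card]
    exact Fintype.one_lt_card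
  have hqe : (IsLocalRing.residue V ⟨e, he⟩) ^ q = IsLocalRing.residue V ⟨e, he⟩ := by
    have h1 := hφ.2 e he
    rw [hfix] at h1
    have h2 : IsLocalRing.residue V (⟨e, he⟩ - ⟨e, he⟩ ^ q) = 0 := by
      rw [hnon]
      exact h1
    rw [map_sub, map_pow, sub_eq_zero] at h2
    exact h2.symm
  have hroots : ((X ^ q - X : (𝓞 K ⧸ v.asIdeal)[X]).map f).roots =
      (X ^ q - X : (𝓞 K ⧸ v.asIdeal)[X]).roots.map f := by
    refine (Splits.roots_map ?_ f)
    rw [splits_iff_card_roots, hq, Nat.card_eq_fintype_card, FiniteField.roots_X_pow_card_sub_X,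
      FiniteField.X_pow_card_sub_X_natDegree_eq _ (by
        rw [hq, Nat.card_eq_fintype_card] at hq1; exact hq1)]
    rfl
  have he' : IsLocalRing.residue V ⟨e, he⟩ ∈ ((X ^ q - X : (𝓞 K ⧸ v.asIdeal)[X]).map f).roots := by
    rw [Polynomial.map_sub, Polynomial.map_pow, map_X, mem_roots
      (FiniteField.X_pow_card_sub_X_ne_zero _ hq1), IsRoot.def, eval_sub, eval_pow, eval_X, hqe,
      sub_self]
  rw [hroots, Multiset.mem_map] at he'
  obtain ⟨a, -, ha⟩ := he'
  obtain ⟨r, rfl⟩ := Ideal.Quotient.mk_surjective a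
  refine ⟨r, ?_⟩
  rw [hf] at ha
  have h2 : IsLocalRing.residue V (⟨e, he⟩ - i r) = 0 := by rw [map_sub, ha, sub_self]
  rw [hnon] at h2
  exact h2

end fro

end Pool.Agent.Helper786_Fer
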