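import Pool.Agent.Helper786_Fer.Loc

/-!
# Generalized Fermat curves at a prime which divides one coefficient: no sections
-/

set_option autoImplicit false
set_option linter.all false

open Polynomial FF Pool.Agent.Y157.PS Pool.Agent.Y158.GR IsDedekindDomain NumberField

namespace Pool.Agent.Helper786_Fer

/-- valuation rings are integrally closed -/
theorem mem_of_pow {M : Type} [Field M] (W : ValuationSubring M) {z : M} {n : ℕ} (hn : n ≠ 0)
    (h : z ^ n ∈ W) : z ∈ W := by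
  by_contra hno
  have h7 : z⁻¹ ∈ W := (W.mem_or_inv_mem z).resolve_left hno
  apply hno
  have hz0 : z ≠ 0 := by
    rintro rfl
    exact hno (zero_mem _)
  obtain ⟨m, rfl⟩ := Nat.exists_eq_succ_of_ne_zero hn
  have h8 : z = z ^ (m + 1) * z⁻¹ ^ m := by
    rw [pow_succ, inv_pow]
    field_simp
  rw [h8]
  exact mul_mem h (pow_mem h7 _)

/-- the local condition -/
structure Bad {K : Type} [Field K] [NumberField K] (ℓ : ℕ) (v : HeightOneSpectrum (𝓞 K))
    (a b c : 𝓞 K) : Prop where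
  hℓ : (ℓ : 𝓞 K) ∉ v.asIdeal
  ha : a ∈ v.asIdeal
  ha' : a ∉ v.asIdeal ^ 2
  hb : b ∉ v.asIdeal
  hc : c ∉ v.asIdeal
  hr : ∀ r : 𝓞 K, b * r ^ ℓ + c ∉ v.asIdeal

section main

variable {K F Ω : Type} [Field K] [NumberField K]
    [Field F] [Field Ω] [Algebra K F] [Algebra F Ω] [Algebra K Ω] [IsScalarTower K F Ω]
    [IsAlgClosed Ω] [Algebra.IsAlgebraic F Ω]

theorem noSec₀ {ℓ : ℕ} [hℓ : Fact ℓ.Prime] {v : HeightOneSpectrum (𝓞 K)} {a b c : 𝓞 K}
    (hbad : Bad ℓ v a b c) {j : ℕ} (hj : 1 ≤ j) (h3 : 3 ≤ ℓ ^ j)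
    (x y : F) (hx : Transcendental K x)
    (hxy : algebraMap K F (algebraMap (𝓞 K) K a) * x ^ (ℓ ^ j) +
      algebraMap K F (algebraMap (𝓞 K) K b) * y ^ ℓ + algebraMap K F (algebraMap (𝓞 K) K c) = 0)
    (hF : IntermediateField.adjoin K {x, y} = (⊤ : IntermediateField K F))
    (S : (algebraicClosure K Ω ≃ₐ[K] algebraicClosure K Ω) →*
      (geomPro ℓ K F Ω ≃ₐ[F] geomPro ℓ K F Ω)) (hcont : Continuous S)
    (hcompat : ∀ σ (c : algebraicClosure K Ω) (z : geomPro ℓ K F Ω), (z : Ω) = (c : Ω) →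
      (S σ z : Ω) = (σ c : Ω)) : False := by
  classical
  have hac : IsAlgClosure K (algebraicClosure K Ω) := inferInstance
  have hinj : Function.Injective (algebraMap (𝓞 K) K) := IsFractionRing.injective (𝓞 K) K
  have hℓ0 : ℓ ≠ 0 := hℓ.out.ne_zero
  have hm0 : 0 < ℓ ^ j := pow_pos hℓ.out.pos j
  haveI : v.asIdeal.IsMaximal := v.isMaximal
  letI : Field (𝓞 K ⧸ v.asIdeal) := Ideal.Quotient.field _
  obtain ⟨V, hV⟩ := exists_above (K := K) (algebraicClosure K Ω) v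
  have hVn : ∀ c ∈ v.asIdeal, algebraMap K (algebraicClosure K Ω) (algebraMap (𝓞 K) K c) ∈
      V.nonunits := fun c hc => hV.ideal c hc
  -- the polynomial
  obtain ⟨g, hg⟩ : ∃ g : (𝓞 K)[X], g = X + C c := ⟨_, rfl⟩
  have hexp : expand (𝓞 K) (ℓ ^ j) g = X ^ (ℓ ^ j) + C c := by
    rw [hg, map_add, expand_X, expand_C]
  have hlc : g.leadingCoeff ∉ v.asIdeal := by
    rw [hg, (monic_X_add_C c).leadingCoeff]
    intro h
    exact v.isPrime.ne_top ((Ideal.eq_top_iff_one _).2 h)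
  have hs : ((expand (𝓞 K) (ℓ ^ j) g).map (Ideal.Quotient.mk v.asIdeal)).Separable := by
    have h1 : (expand (𝓞 K) (ℓ ^ j) g).map (Ideal.Quotient.mk v.asIdeal) =
        X ^ (ℓ ^ j) - C (-(Ideal.Quotient.mk v.asIdeal c)) := by
      rw [hexp, Polynomial.map_add, Polynomial.map_pow, map_X, map_C, C_neg, sub_neg_eq_add]
    rw [h1]
    refine separable_X_pow_sub_C _ ?_ ?_
    · rw [← map_natCast (Ideal.Quotient.mk v.asIdeal), Ne, Ideal.Quotient.eq_zero_iff_mem,
        Nat.cast_pow]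
      exact fun h => hbad.hℓ (v.isPrime.mem_of_pow_mem _ h)
    · rw [neg_ne_zero, Ne, Ideal.Quotient.eq_zero_iff_mem]
      exact hbad.hc
  have hdeg : (expand (𝓞 K) (ℓ ^ j) g).natDegree = ℓ ^ j := by
    rw [hexp, natDegree_X_pow_add_C]
  have hb0 : b ≠ 0 := by
    rintro rfl
    exact hbad.hb (zero_mem _)
  have hbK : -algebraMap (𝓞 K) K b ≠ 0 := by
    rw [neg_ne_zero, Ne, map_eq_zero_iff _ hinj]
    exact hb0
  obtain ⟨A, _, _, _, _, hfin, hfr, hℓA, ⟨f, hfg, hdegA, hlcA, hsA⟩, ⟨ϖ, t, hϖ, ht, hat⟩, hVA⟩ :=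
    Pool.Agent.R925.L.nf_data v ℓ (ℓ ^ j) hm0 hbad.hℓ g hlc hs a 1
      (by rw [pow_one]; exact hbad.ha) hbad.ha'
  obtain ⟨hV1, hV2⟩ := hVA (algebraicClosure K Ω) V hVn
  have hxy' : algebraMap K F (-algebraMap (𝓞 K) K b) * y ^ ℓ =
      aeval (algebraMap K F (algebraMap (𝓞 K) K a) * x ^ (ℓ ^ j)) (f.map (algebraMap A K)) := by
    rw [hfg, hg, Polynomial.map_add, map_X, map_C, map_add, aeval_X, aeval_C, map_neg]
    linear_combination -hxy
  obtain ⟨W, ⟨⟨h1, h2, h4⟩, h5⟩, -⟩ :=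
    Pool.Agent.R925.L.numRM (A := A) V hV1 hV2 hℓA hj f hlcA hsA (by rw [hdegA, hdeg]; exact h3)
      ϖ hϖ _ _ (1 : ℤ) (fun h => by
        have h6 : ((ℓ ^ j : ℕ) : ℤ) ≤ 1 := Int.le_of_dvd one_pos h
        have h7 : ℓ ^ j ≤ 1 := by exact_mod_cast h6
        omega) t ht hat hbK x y hx hxy' hF (geomPro ℓ K F Ω) le_rfl S hcont hcompat
  -- the constants
  let ι : algebraicClosure K Ω → geomPro ℓ K F Ω := fun c => ⟨(c : Ω), const_geomPro ℓ K c⟩
  have hιW : ∀ c : algebraicClosure K Ω, ι c ∈ W := fun c => const_mem_N _ W h1 c _ rfl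
  have hιn : ∀ c : algebraicClosure K Ω, ι c ∈ W.nonunits → c = 0 := by
    intro c hc
    rcases (nonunits_iff.1 hc).2 with h6 | h6
    · exact Subtype.ext (congrArg (fun z : geomPro ℓ K F Ω => (z : Ω)) h6)
    · exfalso
      apply h6
      have h7 : (ι c)⁻¹ = ι c⁻¹ := Subtype.ext rfl
      rw [h7]
      exact hιW _
  obtain ⟨xN, hxN⟩ : ∃ xN, xN = algebraMap F (geomPro ℓ K F Ω) x := ⟨_, rfl⟩
  obtain ⟨yN, hyN⟩ : ∃ yN, yN = algebraMap F (geomPro ℓ K F Ω) y := ⟨_, rfl⟩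
  obtain ⟨i, hi⟩ : ∃ i : 𝓞 K →+* algebraicClosure K Ω, i =
      (algebraMap K (algebraicClosure K Ω)).comp (algebraMap (𝓞 K) K) := ⟨_, rfl⟩
  have hiF : ∀ r : 𝓞 K, algebraMap F (geomPro ℓ K F Ω) (algebraMap K F (algebraMap (𝓞 K) K r)) =
      ι (i r) := by
    intro r
    apply Subtype.ext
    rw [hi]
    exact (IsScalarTower.algebraMap_apply K F Ω _).symm
  have heq : ι (i a) * xN ^ (ℓ ^ j) + ι (i b) * yN ^ ℓ + ι (i c) = 0 := by
    have h6 := congrArg (algebraMap F (geomPro ℓ K F Ω)) hxy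
    rw [map_add, map_add, map_mul, map_mul, map_pow, map_pow, map_zero, hiF, hiF, hiF, ← hxN,
      ← hyN] at h6
    exact h6
  have hib0 : i b ≠ 0 := by
    rw [hi, RingHom.comp_apply, _root_.map_ne_zero, Ne, map_eq_zero_iff _ hinj]
    exact hb0
  have hιb : (ι (i b))⁻¹ ∈ W := by
    have h7 : (ι (i b))⁻¹ = ι (i b)⁻¹ := Subtype.ext rfl
    rw [h7]
    exact hιW _
  have hιb0 : ι (i b) ≠ 0 := by
    intro h
    apply hib0
    exact Subtype.ext (congrArg (fun z : geomPro ℓ K F Ω => (z : Ω)) h)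
  have hint : ∀ z : geomPro ℓ K F Ω, z ^ ℓ ∈ W → z ∈ W := fun z hz => mem_of_pow W hℓ0 hz
  -- values of elements with `ℓ`-th power congruent to a constant
  have hkey : ∀ (z : F) (u : algebraicClosure K Ω),
      algebraMap F (geomPro ℓ K F Ω) z ^ ℓ - ι u ∈ W.nonunits →
      ∃ e : algebraicClosure K Ω, e ^ ℓ = u ∧
        ∀ σ : algebraicClosure K Ω ≃ₐ[K] algebraicClosure K Ω, Dec V σ → σ e = e := by
    intro z u hz
    have h6 : algebraMap F (geomPro ℓ K F Ω) z ∈ W := by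
      apply hint
      have h7 := W.add_mem _ _ (nonunits_iff.1 hz).1 (hιW u)
      rwa [sub_add_cancel] at h7
    obtain ⟨e, hefix, z', hz', he⟩ := h4 z h6
    refine ⟨e, ?_, hefix⟩
    have h7 : z' = algebraMap F (geomPro ℓ K F Ω) z - ι e := Subtype.ext he
    have h8 : algebraMap F (geomPro ℓ K F Ω) z ^ ℓ - ι e ^ ℓ ∈ W.nonunits := by
      obtain ⟨w, hw⟩ := sub_dvd_pow_sub_pow (⟨_, h6⟩ : W) ⟨ι e, hιW e⟩ ℓ
      have h9 := congrArg Subtype.val hw
      have h10 : algebraMap F (geomPro ℓ K F Ω) z ^ ℓ - ι e ^ ℓ = (w : geomPro ℓ K F Ω) * z' := by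
        rw [h7, mul_comm]
        exact h9
      rw [h10]
      exact non_mul w.2 hz'
    have h9 := non_sub h8 hz
    have h10 : algebraMap F (geomPro ℓ K F Ω) z ^ ℓ - ι e ^ ℓ -
        (algebraMap F (geomPro ℓ K F Ω) z ^ ℓ - ι u) = ι (u - e ^ ℓ) := by
      have h11 : ι (u - e ^ ℓ) = ι u - ι e ^ ℓ := Subtype.ext rfl
      rw [h11]
      ring
    rw [h10] at h9
    have h11 := hιn _ h9
    exact (sub_eq_zero.1 h11).symm
  rcases h2 with h2 | h2
  · -- a point with `x = 0`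
    rw [← hxN] at h2
    obtain ⟨e, he, hefix⟩ := hkey y (-(i c) / i b) (by
      have h6 : algebraMap F (geomPro ℓ K F Ω) y ^ ℓ - ι (-(i c) / i b) =
          -((ι (i b))⁻¹ * ι (i a) * (xN ^ (ℓ ^ j - 1) * xN)) := by
        have h7 : ι (-(i c) / i b) = -(ι (i c)) / ι (i b) := Subtype.ext rfl
        rw [h7, ← hyN, ← pow_succ, Nat.sub_add_cancel hm0]
        field_simp
        linear_combination heq
      rw [h6]
      have h7 : (ι (i b))⁻¹ * ι (i a) * (xN ^ (ℓ ^ j - 1) * xN) ∈ W.nonunits :=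
        non_mul (mul_mem hιb (hιW _)) (non_mul (pow_mem (nonunits_iff.1 h2).1 _) h2)
      have h8 := non_mul (neg_mem (one_mem W)) h7
      rwa [neg_one_mul] at h8)
    have hmemV : ∀ r : 𝓞 K, i r ∈ V := by
      intro r
      rw [hi, RingHom.comp_apply, hV, v.valuation_of_algebraMap]
      exact v.intValuation_le_one r
    have hbU : IsU V (i b) := by
      rw [hi, RingHom.comp_apply, hV.isU, v.valuation_of_algebraMap, v.intValuation_eq_one_iff]
      exact hbad.hb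
    have heV : e ∈ V := by
      have h6 : e ^ ℓ ∈ V := by
        rw [he, div_eq_mul_inv]
        exact mul_mem (neg_mem (hmemV c)) hbU.2.2
      exact mem_of_pow V hℓ0 h6
    obtain ⟨φ, hφ⟩ := fro_num v V hVn
    obtain ⟨r, hr⟩ := res_fix v V hVn hφ heV (hefix φ hφ.1)
    apply hbad.hr r
    have h6 : i (b * r ^ ℓ + c) ∈ V.nonunits := by
      have h7 : e ^ ℓ - i r ^ ℓ ∈ V.nonunits := by
        obtain ⟨w, hw⟩ := sub_dvd_pow_sub_pow (⟨_, heV⟩ : V) ⟨i r, hmemV r⟩ ℓ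
        have h9 := congrArg Subtype.val hw
        have h10 : e ^ ℓ - i r ^ ℓ = (w : algebraicClosure K Ω) * (e - i r) := by
          rw [mul_comm]
          exact h9
        rw [h10]
        refine non_mul w.2 ?_
        rw [hi]
        exact hr
      have h8 : i (b * r ^ ℓ + c) = -(i b) * (e ^ ℓ - i r ^ ℓ) := by
        rw [he, map_add, map_mul, map_pow]
        field_simp
        ring
      rw [h8]
      exact non_mul (neg_mem (hmemV b)) h7
    by_contra hno
    have h7 : IsU V (i (b * r ^ ℓ + c)) := by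
      rw [hi, RingHom.comp_apply, hV.isU, v.valuation_of_algebraMap, v.intValuation_eq_one_iff]
      exact hno
    exact h7.not_nonunit h6
  · -- a point with `x = ∞`
    obtain ⟨m, hm⟩ : ∃ m : ℕ, ℓ ^ j = m * ℓ := by
      obtain ⟨n, rfl⟩ := Nat.exists_eq_succ_of_ne_zero (by omega : j ≠ 0)
      exact ⟨ℓ ^ n, pow_succ _ _⟩
    have hx0 : x ≠ 0 := by
      rintro rfl
      exact hx isAlgebraic_zero
    have hxN0 : xN ≠ 0 := by
      rw [hxN]
      exact (_root_.map_ne_zero _).2 hx0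
    have h2' : xN⁻¹ ∈ W.nonunits := by
      rw [hxN, ← map_inv₀]
      exact h2
    obtain ⟨e, he, hefix⟩ := hkey (y / x ^ m) (-(i a) / i b) (by
      have h6 : algebraMap F (geomPro ℓ K F Ω) (y / x ^ m) ^ ℓ - ι (-(i a) / i b) =
          -((ι (i b))⁻¹ * ι (i c) * (xN⁻¹ ^ (ℓ ^ j - 1) * xN⁻¹)) := by
        have h7 : ι (-(i a) / i b) = -(ι (i a)) / ι (i b) := Subtype.ext rfl
        have h8 : algebraMap F (geomPro ℓ K F Ω) (y / x ^ m) ^ ℓ = yN ^ ℓ / xN ^ (ℓ ^ j) := by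
          rw [map_div₀, map_pow, ← hxN, ← hyN, div_pow, ← pow_mul, hm]
        rw [h7, h8, ← pow_succ, Nat.sub_add_cancel hm0, inv_pow]
        have hxp : xN ^ (ℓ ^ j) ≠ 0 := pow_ne_zero _ hxN0
        field_simp
        linear_combination heq
      rw [h6]
      have h7 : (ι (i b))⁻¹ * ι (i c) * (xN⁻¹ ^ (ℓ ^ j - 1) * xN⁻¹) ∈ W.nonunits :=
        non_mul (mul_mem hιb (hιW _)) (non_mul (pow_mem (nonunits_iff.1 h2').1 _) h2')
      have h8 := non_mul (neg_mem (one_mem W)) h7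
      rwa [neg_one_mul] at h8)
    have ha0 : a ≠ 0 := by
      rintro rfl
      exact hbad.ha' (zero_mem _)
    have hia0 : i a ≠ 0 := by
      rw [hi, RingHom.comp_apply, _root_.map_ne_zero, Ne, map_eq_zero_iff _ hinj]
      exact ha0
    have he0 : e ≠ 0 := by
      rintro rfl
      rw [zero_pow hℓ0, eq_comm, div_eq_zero_iff, neg_eq_zero] at he
      exact he.elim hia0 hib0
    obtain ⟨u, hu⟩ := hV.pow (c := e) (a := -(algebraMap (𝓞 K) K a) / algebraMap (𝓞 K) K b)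
      hbad.hℓ he0 (fun σ hσ => hefix σ hσ.1) (by
        rw [he, hi, map_div₀, map_neg]
        rfl)
    have hva : v.valuation K (algebraMap (𝓞 K) K a) = WithZero.exp (-1 : ℤ) := by
      rw [v.valuation_of_algebraMap]
      apply le_antisymm
      · have h6 := (v.intValuation_le_pow_iff_mem a 1).2 (by rw [pow_one]; exact hbad.ha)
        exact_mod_cast h6
      · by_contra hno
        apply hbad.ha'
        rw [← v.intValuation_le_pow_iff_mem]
        have h6 := lt_of_not_ge hno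
        obtain ⟨n, hn⟩ := Pool.Agent.Y158.KL.exists_exp (v.intValuation_ne_zero a ha0)
        rw [hn, WithZero.exp_lt_exp] at h6
        rw [hn, WithZero.exp_le_exp]
        push_cast
        omega
    have hvb : v.valuation K (algebraMap (𝓞 K) K b) = 1 := by
      rw [v.valuation_of_algebraMap, v.intValuation_eq_one_iff]
      exact hbad.hb
    rw [map_div₀, Valuation.map_neg, hva, hvb, div_one] at hu
    have hu0 : v.valuation K u ≠ 0 := by
      intro h6
      rw [h6, zero_pow hℓ0] at hu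
      exact WithZero.exp_ne_zero hu
    obtain ⟨n, hn⟩ := Pool.Agent.Y158.KL.exists_exp hu0
    rw [hn, Pool.Agent.Y158.KL.exp_pow, WithZero.exp_inj] at hu
    have h6 : (ℓ : ℤ) ∣ 1 := ⟨-n, by linarith⟩
    have h7 : ℓ ∣ 1 := by exact_mod_cast h6
    exact hℓ.out.one_lt.ne' (Nat.dvd_one.1 h7)

end main

end Pool.Agent.Helper786_Fer
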